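import Pool.Agent.Q249.SF.Stm

/-! Project SF (helper249), job DIA (helper285): the diagonal choice of the exponent. -/

set_option autoImplicit false

open MeasureTheory Real Set Filter Topology
open scoped FourierTransform SchwartzMap

namespace Q285.SF

open Q249.SF

theorem sn_mono {b k : ℕ} (h : b ≤ k) (c : Rapid) : Rapid.sn b c ≤ Rapid.sn k c := by
  refine Rapid.sn_le c b _ fun n => ?_
  refine le_trans ?_ (Rapid.le_sn c k n)
  refine mul_le_mul_of_nonneg_right ?_ (norm_nonneg _)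
  exact pow_le_pow_right₀ (by linarith [abs_nonneg (n : ℝ)]) h

theorem dw_pow_le (b e : ℕ) (N : ℝ) (hN : 0 < N) {j r : ℕ} (hjr : j ≤ r) (n : ℤ) :
    dw b e N r n ≤ (1 / N) ^ j * (1 + |(n : ℝ)|) ^ (b + e * j) := by
  unfold dw
  have h1 : (0 : ℝ) ≤ 1 + |(n : ℝ)| := by positivity
  have h2 : (0 : ℝ) ≤ min 1 ((1 + |(n : ℝ)|) ^ e / N) := le_min zero_le_one (by positivity)
  have h3 : min 1 ((1 + |(n : ℝ)|) ^ e / N) ^ r ≤ ((1 + |(n : ℝ)|) ^ e / N) ^ j :=
    (pow_le_pow_of_le_one h2 (min_le_left _ _) hjr).trans (pow_le_pow_left₀ h2 (min_le_right _ _) j)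
  calc (1 + |(n : ℝ)|) ^ b * min 1 ((1 + |(n : ℝ)|) ^ e / N) ^ r
      ≤ (1 + |(n : ℝ)|) ^ b * ((1 + |(n : ℝ)|) ^ e / N) ^ j :=
        mul_le_mul_of_nonneg_left h3 (pow_nonneg h1 _)
    _ = (1 / N) ^ j * (1 + |(n : ℝ)|) ^ (b + e * j) := by
        rw [div_pow, pow_add, pow_mul, one_div, inv_pow]
        ring

theorem dw_mul_le (b e : ℕ) (N : ℝ) (hN : 0 < N) {j r : ℕ} (hjr : j ≤ r) (c : Rapid) (n : ℤ) :
    dw b e N r n * ‖c n‖ ≤ (1 / N) ^ j * Rapid.sn (b + e * j) c := by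
  refine (mul_le_mul_of_nonneg_right (dw_pow_le b e N hN hjr n) (norm_nonneg _)).trans ?_
  rw [mul_assoc]
  exact mul_le_mul_of_nonneg_left (Rapid.le_sn c _ n) (by positivity)

theorem t_DIA : Q249.SF.S_FUN → Q249.SF.S_DIA := by
  classical
  intro hF x y hxy c b e τ hτ hK
  choose D hD0 hD using hK
  obtain ⟨s, hs⟩ : ∃ s : ℤ × ℤ → ℝ, s = fun a => 1 + |(a.1 : ℝ)| + |(a.2 : ℝ)| := ⟨_, rfl⟩
  have hs1 : ∀ a, 1 ≤ s a := by
    intro a
    rw [hs]
    have := abs_nonneg (a.1 : ℝ)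
    have := abs_nonneg (a.2 : ℝ)
    simp only
    linarith
  obtain ⟨N, hN⟩ : ∃ N : ℤ × ℤ → ℝ, N = fun a => s a ^ τ := ⟨_, rfl⟩
  have hN1 : ∀ a, 1 ≤ N a := by
    intro a
    rw [hN]
    exact Real.one_le_rpow (hs1 a) hτ.le
  obtain ⟨ρ, hρ⟩ : ∃ ρ : ℤ × ℤ → ℕ, ρ = fun a => Nat.findGreatest (fun r => D r ≤ N a + D 0) ⌊N a⌋₊ :=
    ⟨_, rfl⟩
  have hρD : ∀ a, D (ρ a) ≤ N a + D 0 := by
    intro a
    rw [hρ]
    exact Nat.findGreatest_spec (P := fun r => D r ≤ N a + D 0) (Nat.zero_le ⌊N a⌋₊)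
      (by linarith [hN1 a])
  have hρj : ∀ (j : ℕ) a, (j : ℝ) ≤ N a → D j ≤ N a → j ≤ ρ a := by
    intro j a h1 h2
    rw [hρ]
    exact Nat.le_findGreatest (Nat.le_floor h1) (by linarith [hD0 0])
  have hex := fun a => hF x y hxy b e (ρ a) (N a) (D (ρ a)) (hN1 a) (hD0 _) (c a) (by
    intro f B hB h1 h2
    have h3 := hD (ρ a) a f B hB
    rw [hN, hs] at h1 h2
    exact h3 h1 h2)
  choose m hm1 hm2 using hex
  refine ⟨m, fun j => ?_, hm2⟩
  -- the bound with an exponent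
  have hb : ∀ (i : ℕ) a (d : Rapid × Rapid), i ≤ ρ a →
      ‖m a d‖ ≤ D (ρ a) * ((1 / N a) ^ i * (Rapid.sn (b + e * i) d.1 + Rapid.sn (b + e * i) d.2)) := by
    intro i a d hi
    have hNa : 0 < N a := by linarith [hN1 a]
    have hp : 0 ≤ (1 / N a) ^ i := by positivity
    have h1 : 0 ≤ Rapid.sn (b + e * i) d.1 := apply_nonneg _ _
    have h2 : 0 ≤ Rapid.sn (b + e * i) d.2 := apply_nonneg _ _
    refine hm1 a d _ (mul_nonneg hp (add_nonneg h1 h2)) (fun n => ?_) (fun n => ?_)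
    · refine (dw_mul_le b e (N a) hNa hi d.1 n).trans ?_
      exact mul_le_mul_of_nonneg_left (by linarith) hp
    · refine (dw_mul_le b e (N a) hNa hi d.2 n).trans ?_
      exact mul_le_mul_of_nonneg_left (by linarith) hp
  obtain ⟨i, hi⟩ : ∃ i : ℕ, (j : ℝ) ≤ τ * i := by
    obtain ⟨i, hi⟩ := exists_nat_ge ((j : ℝ) / τ)
    refine ⟨i, ?_⟩
    rw [div_le_iff₀ hτ] at hi
    linarith
  -- comparison of powers
  have hsN : ∀ a, s a ^ j ≤ N a ^ i := by
    intro a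
    have hsa : 0 < s a := by linarith [hs1 a]
    rw [hN]
    simp only
    rw [← Real.rpow_natCast, ← Real.rpow_natCast, ← Real.rpow_mul hsa.le]
    exact Real.rpow_le_rpow_of_exponent_le (hs1 a) hi
  have hpow : ∀ a, (1 / N a) ^ i ≤ (1 / s a) ^ j := by
    intro a
    have hsa : 0 < s a := by linarith [hs1 a]
    rw [div_pow, div_pow, one_pow, one_pow]
    exact one_div_le_one_div_of_le (by positivity) (hsN a)
  obtain ⟨M, hM⟩ : ∃ M : ℝ, M = max (max ((i + 1 : ℕ) : ℝ) (D (i + 1))) 1 := ⟨_, rfl⟩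
  have hM1 : 1 ≤ M := hM ▸ le_max_right _ _
  have hD00 := hD0 0
  refine ⟨(1 + D 0) + (M + D 0) * M ^ i, b + e * (i + 1), fun a d => ?_⟩
  have hsa : 0 < s a := by linarith [hs1 a]
  have hNa : 0 < N a := by linarith [hN1 a]
  have hsv : (1 + |(a.1 : ℝ)| + |(a.2 : ℝ)|) = s a := by rw [hs]
  rw [hsv]
  obtain ⟨S, hS⟩ : ∃ S : ℝ, S = Rapid.sn (b + e * (i + 1)) d.1 + Rapid.sn (b + e * (i + 1)) d.2 := ⟨_, rfl⟩
  have hS0 : 0 ≤ S := by
    rw [hS]
    exact add_nonneg (apply_nonneg _ _) (apply_nonneg _ _)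
  rw [← hS]
  have hjs : 0 ≤ (1 / s a) ^ j := by positivity
  have hMj : 0 ≤ (M + D 0) * M ^ i := by positivity
  by_cases hcase : M ≤ N a
  · have h1 : i + 1 ≤ ρ a := hρj (i + 1) a
      (((le_max_left _ _).trans (le_max_left _ _)).trans (hM ▸ hcase))
      (((le_max_right _ _).trans (le_max_left _ _)).trans (hM ▸ hcase))
    have h2 := hb (i + 1) a d h1
    rw [← hS] at h2
    have h3 : D (ρ a) * ((1 / N a) ^ (i + 1) * S) ≤ (1 + D 0) * (1 / s a) ^ j * S := by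
      have h4 : D (ρ a) ≤ (1 + D 0) * N a := by
        have := hρD a
        have := hN1 a
        nlinarith
      calc D (ρ a) * ((1 / N a) ^ (i + 1) * S) ≤ ((1 + D 0) * N a) * ((1 / N a) ^ (i + 1) * S) := by
            refine mul_le_mul_of_nonneg_right h4 (mul_nonneg (by positivity) hS0)
        _ = (1 + D 0) * (1 / N a) ^ i * S := by
            rw [pow_succ]
            field_simp
        _ ≤ (1 + D 0) * (1 / s a) ^ j * S := by
            refine mul_le_mul_of_nonneg_right (mul_le_mul_of_nonneg_left (hpow a) (by linarith)) hS0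
    have h5 : (1 + D 0) * (1 / s a) ^ j * S ≤ ((1 + D 0) + (M + D 0) * M ^ i) * (1 / s a) ^ j * S := by
      refine mul_le_mul_of_nonneg_right (mul_le_mul_of_nonneg_right (by linarith) hjs) hS0
    exact h2.trans (h3.trans h5)
  · have hlt : N a ≤ M := (not_le.1 hcase).le
    have h2 := hb 0 a d (Nat.zero_le _)
    have hS2 : Rapid.sn (b + e * 0) d.1 + Rapid.sn (b + e * 0) d.2 ≤ S := by
      rw [hS]
      have hle : b + e * 0 ≤ b + e * (i + 1) := by
        rw [Nat.mul_zero]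
        exact Nat.le_add_right _ _
      exact add_le_add (sn_mono hle _) (sn_mono hle _)
    rw [pow_zero, one_mul] at h2
    have h6 : 1 ≤ M ^ i * (1 / s a) ^ j := by
      have h7 : s a ^ j ≤ M ^ i := (hsN a).trans (pow_le_pow_left₀ hNa.le hlt i)
      have h8 : 0 < s a ^ j := by positivity
      rw [div_pow, one_pow, mul_one_div, le_div_iff₀ h8, one_mul]
      exact h7
    have h9 : D (ρ a) ≤ M + D 0 := (hρD a).trans (by linarith)
    have h10 : D (ρ a) * (Rapid.sn (b + e * 0) d.1 + Rapid.sn (b + e * 0) d.2) ≤ (M + D 0) * S := by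
      refine mul_le_mul h9 hS2 (add_nonneg (apply_nonneg _ _) (apply_nonneg _ _)) (by linarith)
    have h11 : (M + D 0) * S ≤ (M + D 0) * S * (M ^ i * (1 / s a) ^ j) :=
      le_mul_of_one_le_right (mul_nonneg (by linarith) hS0) h6
    have h12 : (M + D 0) * S * (M ^ i * (1 / s a) ^ j) = ((M + D 0) * M ^ i) * (1 / s a) ^ j * S := by ring
    have h13 : ((M + D 0) * M ^ i) * (1 / s a) ^ j * S ≤ ((1 + D 0) + (M + D 0) * M ^ i) * (1 / s a) ^ j * S := by
      refine mul_le_mul_of_nonneg_right (mul_le_mul_of_nonneg_right (by linarith) hjs) hS0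
    exact h2.trans (h10.trans (h11.trans (h12.le.trans h13)))

end Q285.SF
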