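import Pool.Agent.Q249.SF.Stm

/-! Project SF (helper249), job EXT (helper285): Hahn-Banach for a functional dominated by a linear map. -/

set_option autoImplicit false

namespace Q285.SF

theorem t_EXT : Q249.SF.S_EXT := by
  intro E _ _ Y _ _ T l D hD hl
  have hker : LinearMap.ker T ≤ LinearMap.ker l := by
    intro v hv
    rw [LinearMap.mem_ker] at hv ⊢
    have h := hl v
    rw [hv, norm_zero, mul_zero] at h
    exact norm_le_zero_iff.1 h
  set l0 : LinearMap.range T →ₗ[ℂ] ℂ :=
    ((LinearMap.ker T).liftQ l hker).comp (T.quotKerEquivRange.symm : LinearMap.range T →ₗ[ℂ] _) with hl0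
  have hval : ∀ v : E, l0 ⟨T v, LinearMap.mem_range_self T v⟩ = l v := by
    intro v
    rw [hl0]
    have h1 : T.quotKerEquivRange.symm ⟨T v, LinearMap.mem_range_self T v⟩ =
        (LinearMap.ker T).mkQ v := by
      rw [LinearEquiv.symm_apply_eq]
      rfl
    simp only [LinearMap.coe_comp, LinearEquiv.coe_coe, Function.comp_apply]
    rw [h1]
    simp
  have hbd : ∀ u : LinearMap.range T, ‖l0 u‖ ≤ D * ‖u‖ := by
    rintro ⟨u, v, rfl⟩
    rw [hval v]
    exact hl v
  obtain ⟨Ψ, hΨ, hn⟩ := exists_extension_norm_eq (LinearMap.range T) (l0.mkContinuous D hbd)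
  refine ⟨Ψ, ?_, fun v => ?_⟩
  · rw [hn]
    exact LinearMap.mkContinuous_norm_le _ hD _
  · have := hΨ ⟨T v, LinearMap.mem_range_self T v⟩
    rw [this]
    exact hval v

end Q285.SF
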