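import Mathlib
import Pool.Agent.Q90.SF.Stm

/-! # Expansion of Fourier transforms of star-shaped domains near the disc
(lemma jobs LIN, LIN2 of project SF of helper90, helper285) -/

set_option autoImplicit false

open MeasureTheory Metric Set Filter Topology
open scoped Real

namespace Q285SF

open Q90.SF

/-- `e^{i k cos u}` -/
noncomputable def Ek (k u : ℝ) : ℂ := Complex.exp (((k * Real.cos u : ℝ) : ℂ) * Complex.I)

/-- the Fourier transform in polar coordinates -/
noncomputable def Psi (R : ℝ → ℝ) (k α : ℝ) : ℂ :=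
  ∫ θ in (-π)..π, ∫ r in (0 : ℝ)..R θ,
    (r : ℂ) * Complex.exp (((r * (k * Real.cos (θ - α)) : ℝ) : ℂ) * Complex.I)

lemma norm_e (x : ℝ) : ‖Complex.exp ((x : ℂ) * Complex.I)‖ = 1 := Complex.norm_exp_ofReal_mul_I x

lemma inner_polar (k α r θ : ℝ) :
    (inner ℝ ((k : ℂ) * Complex.exp (α * Complex.I)) ((r : ℂ) * Complex.exp (θ * Complex.I)) : ℝ) =
      r * (k * Real.cos (θ - α)) := by
  rw [Complex.inner, Real.cos_sub]
  simp only [map_mul, Complex.conj_ofReal, Complex.mul_re, Complex.mul_im, Complex.ofReal_re,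
    Complex.ofReal_im, Complex.conj_re, Complex.conj_im, Complex.exp_ofReal_mul_I_re,
    Complex.exp_ofReal_mul_I_im]
  ring

lemma ft_star (hpol : S_pol) {R : ℝ → ℝ} (hR : Continuous R) (h0 : ∀ θ, 0 ≤ R θ) (k α : ℝ) :
    ft (starDom R) ((k : ℂ) * Complex.exp (α * Complex.I)) = Psi R k α := by
  unfold ft Psi
  rw [hpol.2.1 R hR h0 (fun x => Complex.exp (((inner ℝ ((k : ℂ) * Complex.exp (α * Complex.I)) x : ℝ) : ℂ)
    * Complex.I)) (by fun_prop)]
  apply intervalIntegral.integral_congr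
  intro θ _
  apply intervalIntegral.integral_congr
  intro r _
  simp only
  rw [inner_polar]

lemma est1 (x y : ℝ) :
    ‖Complex.exp ((x : ℂ) * Complex.I) - Complex.exp ((y : ℂ) * Complex.I)‖ ≤ |x - y| := by
  have h1 : Complex.exp ((x : ℂ) * Complex.I) - Complex.exp ((y : ℂ) * Complex.I) =
      Complex.exp ((y : ℂ) * Complex.I) * (Complex.exp (Complex.I * ((x - y : ℝ) : ℂ)) - 1) := by
    rw [mul_sub, mul_one, ← Complex.exp_add]
    congr 2
    push_cast; ring
  rw [h1, norm_mul, norm_e, one_mul]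
  exact Real.norm_exp_I_mul_ofReal_sub_one_le

lemma est2 (z : ℝ) : ‖Complex.exp ((z : ℂ) * Complex.I) - 1 - (z : ℂ) * Complex.I‖ ≤ 3 * z ^ 2 := by
  have hn : ‖(z : ℂ) * Complex.I‖ = |z| := by simp
  by_cases h : |z| ≤ 1
  · have := Complex.norm_exp_sub_one_sub_id_le (x := (z : ℂ) * Complex.I) (by rw [hn]; exact h)
    rw [hn, sq_abs] at this
    nlinarith [sq_nonneg z]
  · push Not at h
    have h1 : ‖Complex.exp ((z : ℂ) * Complex.I) - 1 - (z : ℂ) * Complex.I‖ ≤ 1 + 1 + |z| := by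
      refine (norm_sub_le _ _).trans ?_
      rw [hn]
      gcongr
      refine (norm_sub_le _ _).trans ?_
      rw [norm_e]; simp
    have h2 : z ^ 2 = |z| ^ 2 := (sq_abs z).symm
    rw [h2]
    nlinarith

lemma in1 (r y : ℝ) : ‖(r : ℂ) * Complex.exp (((r * y : ℝ) : ℂ) * Complex.I) -
    Complex.exp ((y : ℂ) * Complex.I)‖ ≤ (1 + |y|) * |r - 1| := by
  have h1 : (r : ℂ) * Complex.exp (((r * y : ℝ) : ℂ) * Complex.I) - Complex.exp ((y : ℂ) * Complex.I) =
      ((r - 1 : ℝ) : ℂ) * Complex.exp (((r * y : ℝ) : ℂ) * Complex.I) +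
      (Complex.exp (((r * y : ℝ) : ℂ) * Complex.I) - Complex.exp ((y : ℂ) * Complex.I)) := by
    push_cast; ring
  rw [h1]
  refine (norm_add_le _ _).trans ?_
  rw [norm_mul, norm_e, mul_one, Complex.norm_real, Real.norm_eq_abs]
  have h2 := est1 (r * y) y
  have h3 : |r * y - y| = |y| * |r - 1| := by
    rw [← abs_mul]; congr 1; ring
  rw [h3] at h2
  linarith

lemma in2 (r y : ℝ) : ‖(r : ℂ) * Complex.exp (((r * y : ℝ) : ℂ) * Complex.I) -
    (Complex.exp ((y : ℂ) * Complex.I) +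
      ((r - 1 : ℝ) : ℂ) * ((1 + (y : ℂ) * Complex.I) * Complex.exp ((y : ℂ) * Complex.I)))‖ ≤
      (3 * y ^ 2 + |y|) * (r - 1) ^ 2 := by
  have h1 : (r : ℂ) * Complex.exp (((r * y : ℝ) : ℂ) * Complex.I) -
    (Complex.exp ((y : ℂ) * Complex.I) +
      ((r - 1 : ℝ) : ℂ) * ((1 + (y : ℂ) * Complex.I) * Complex.exp ((y : ℂ) * Complex.I))) =
      Complex.exp ((y : ℂ) * Complex.I) *
        ((Complex.exp ((((r - 1) * y : ℝ) : ℂ) * Complex.I) - 1 - (((r - 1) * y : ℝ) : ℂ) * Complex.I) +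
        ((r - 1 : ℝ) : ℂ) * (Complex.exp ((((r - 1) * y : ℝ) : ℂ) * Complex.I) -
          Complex.exp (((0 : ℝ) : ℂ) * Complex.I))) := by
    have e : Complex.exp (((r * y : ℝ) : ℂ) * Complex.I) = Complex.exp ((y : ℂ) * Complex.I) *
        Complex.exp ((((r - 1) * y : ℝ) : ℂ) * Complex.I) := by
      rw [← Complex.exp_add]
      congr 1
      push_cast; ring
    rw [e, Complex.ofReal_zero, zero_mul, Complex.exp_zero]
    push_cast
    ring
  rw [h1, norm_mul, norm_e, one_mul]
  refine (norm_add_le _ _).trans ?_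
  rw [norm_mul, Complex.norm_real, Real.norm_eq_abs]
  have h2 := est2 ((r - 1) * y)
  have h3 := est1 ((r - 1) * y) 0
  rw [sub_zero, abs_mul] at h3
  have h4 : |r - 1| * ‖Complex.exp ((((r - 1) * y : ℝ) : ℂ) * Complex.I) -
          Complex.exp (((0 : ℝ) : ℂ) * Complex.I)‖ ≤ |r - 1| * (|r - 1| * |y|) :=
    mul_le_mul_of_nonneg_left h3 (abs_nonneg _)
  have h5 : |r - 1| * (|r - 1| * |y|) = |y| * (r - 1) ^ 2 := by
    rw [← mul_assoc, abs_mul_abs_self]; ring
  rw [h5] at h4
  have h6 : 3 * ((r - 1) * y) ^ 2 = 3 * y ^ 2 * (r - 1) ^ 2 := by ring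
  rw [h6] at h2
  linarith

lemma abs_mem {x r : ℝ} (hr : r ∈ uIoc 1 (1 + x)) : |r - 1| ≤ |x| := by
  rcases le_total 1 (1 + x) with h | h
  · rw [uIoc_of_le h] at hr
    rw [abs_of_nonneg (by linarith [hr.1]), abs_of_nonneg (by linarith)]
    linarith [hr.2]
  · rw [uIoc_of_ge h] at hr
    rw [abs_of_nonpos (by linarith [hr.2]), abs_of_nonpos (by linarith)]
    linarith [hr.1]

lemma int1 (x y : ℝ) : ‖(∫ r in (1 : ℝ)..(1 + x), (r : ℂ) * Complex.exp (((r * y : ℝ) : ℂ) * Complex.I)) -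
    (x : ℂ) * Complex.exp ((y : ℂ) * Complex.I)‖ ≤ (1 + |y|) * x ^ 2 := by
  have h1 : (∫ r in (1 : ℝ)..(1 + x), (r : ℂ) * Complex.exp (((r * y : ℝ) : ℂ) * Complex.I)) -
      (x : ℂ) * Complex.exp ((y : ℂ) * Complex.I) = ∫ r in (1 : ℝ)..(1 + x),
        ((r : ℂ) * Complex.exp (((r * y : ℝ) : ℂ) * Complex.I) - Complex.exp ((y : ℂ) * Complex.I)) := by
    rw [intervalIntegral.integral_sub (Continuous.intervalIntegrable (by fun_prop) _ _)
      (Continuous.intervalIntegrable (by fun_prop) _ _), intervalIntegral.integral_const]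
    congr 1
    rw [add_sub_cancel_left, Complex.real_smul]
  rw [h1]
  have h2 := intervalIntegral.norm_integral_le_of_norm_le_const (a := (1:ℝ)) (b := 1 + x)
    (C := (1 + |y|) * |x|) (f := fun r : ℝ => (r : ℂ) * Complex.exp (((r * y : ℝ) : ℂ) * Complex.I) -
      Complex.exp ((y : ℂ) * Complex.I)) (fun r hr => by
      refine (in1 r y).trans ?_
      have := abs_mem hr
      gcongr)
  refine h2.trans (le_of_eq ?_)
  rw [add_sub_cancel_left, mul_assoc, abs_mul_abs_self]
  ring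

lemma int2 (x y : ℝ) : ‖(∫ r in (1 : ℝ)..(1 + x), (r : ℂ) * Complex.exp (((r * y : ℝ) : ℂ) * Complex.I)) -
    ((x : ℂ) * Complex.exp ((y : ℂ) * Complex.I) + ((x ^ 2 / 2 : ℝ) : ℂ) *
      ((1 + (y : ℂ) * Complex.I) * Complex.exp ((y : ℂ) * Complex.I)))‖ ≤
      (3 * y ^ 2 + |y|) * |x| ^ 3 := by
  have h0 : ∫ r in (1 : ℝ)..(1 + x), (((r - 1 : ℝ) : ℝ) : ℂ) = ((x ^ 2 / 2 : ℝ) : ℂ) := by
    rw [intervalIntegral.integral_ofReal]
    congr 1
    have h1 : ∀ r ∈ Set.uIcc (1:ℝ) (1 + x), HasDerivAt (fun r : ℝ => (r - 1) ^ 2 / 2) (r - 1) r := by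
      intro r _
      have e5 := (((hasDerivAt_id r).sub_const 1).pow 2).div_const 2
      refine e5.congr_deriv ?_
      simp
    rw [intervalIntegral.integral_eq_sub_of_hasDerivAt h1
      (Continuous.intervalIntegrable (by fun_prop) _ _)]
    ring
  have h1 : (∫ r in (1 : ℝ)..(1 + x), (r : ℂ) * Complex.exp (((r * y : ℝ) : ℂ) * Complex.I)) -
      ((x : ℂ) * Complex.exp ((y : ℂ) * Complex.I) + ((x ^ 2 / 2 : ℝ) : ℂ) *
      ((1 + (y : ℂ) * Complex.I) * Complex.exp ((y : ℂ) * Complex.I))) = ∫ r in (1 : ℝ)..(1 + x),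
        ((r : ℂ) * Complex.exp (((r * y : ℝ) : ℂ) * Complex.I) - (Complex.exp ((y : ℂ) * Complex.I) +
        ((r - 1 : ℝ) : ℂ) * ((1 + (y : ℂ) * Complex.I) * Complex.exp ((y : ℂ) * Complex.I)))) := by
    rw [intervalIntegral.integral_sub (Continuous.intervalIntegrable (by fun_prop) _ _)
      (Continuous.intervalIntegrable (by fun_prop) _ _),
      intervalIntegral.integral_add (Continuous.intervalIntegrable (by fun_prop) _ _)
      (Continuous.intervalIntegrable (by fun_prop) _ _), intervalIntegral.integral_const,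
      intervalIntegral.integral_mul_const, h0]
    congr 2
    rw [add_sub_cancel_left, Complex.real_smul]
  rw [h1]
  have h2 := intervalIntegral.norm_integral_le_of_norm_le_const (a := (1:ℝ)) (b := 1 + x)
    (C := (3 * y ^ 2 + |y|) * |x| ^ 2) (f := fun r : ℝ =>
      (r : ℂ) * Complex.exp (((r * y : ℝ) : ℂ) * Complex.I) - (Complex.exp ((y : ℂ) * Complex.I) +
        ((r - 1 : ℝ) : ℂ) * ((1 + (y : ℂ) * Complex.I) * Complex.exp ((y : ℂ) * Complex.I))))
    (fun r hr => by
      refine (in2 r y).trans ?_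
      have := abs_mem hr
      rw [← sq_abs (r - 1)]
      gcongr)
  refine h2.trans (le_of_eq ?_)
  rw [add_sub_cancel_left]
  ring

lemma inner_cont {R : ℝ → ℝ} (hR : Continuous R) (k α : ℝ) : Continuous (fun θ : ℝ =>
    ∫ r in (0 : ℝ)..R θ, (r : ℂ) * Complex.exp (((r * (k * Real.cos (θ - α)) : ℝ) : ℂ) * Complex.I)) := by
  apply intervalIntegral.continuous_parametric_intervalIntegral_of_continuous _ hR
  unfold Function.uncurry
  fun_prop

lemma Psi_sub {g : ℝ → ℝ} (hg : Continuous g) (s k α : ℝ) :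
    Psi (fun θ => 1 + s * g θ) k α - Psi (fun _ => 1) k α = ∫ θ in (-π)..π,
      ∫ r in (1 : ℝ)..(1 + s * g θ),
        (r : ℂ) * Complex.exp (((r * (k * Real.cos (θ - α)) : ℝ) : ℂ) * Complex.I) := by
  unfold Psi
  rw [← intervalIntegral.integral_sub ((inner_cont (by fun_prop) k α).intervalIntegrable _ _)
    ((inner_cont (by fun_prop) k α).intervalIntegrable _ _)]
  apply intervalIntegral.integral_congr
  intro θ _
  simp only
  rw [intervalIntegral.integral_interval_sub_left]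
  · exact Continuous.intervalIntegrable (by fun_prop) _ _
  · exact Continuous.intervalIntegrable (by fun_prop) _ _

lemma mid_cont {g : ℝ → ℝ} (hg : Continuous g) (s k α : ℝ) : Continuous (fun θ : ℝ =>
    ∫ r in (1 : ℝ)..(1 + s * g θ),
      (r : ℂ) * Complex.exp (((r * (k * Real.cos (θ - α)) : ℝ) : ℂ) * Complex.I)) := by
  apply intervalIntegral.continuous_parametric_intervalIntegral_of_continuous _ (by fun_prop)
  unfold Function.uncurry
  fun_prop

lemma Psi_exp1 {g : ℝ → ℝ} (hg : Continuous g) {M : ℝ} (hM : ∀ θ, |g θ| ≤ M) (s k α : ℝ) :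
    ‖Psi (fun θ => 1 + s * g θ) k α - Psi (fun _ => 1) k α -
      (s : ℂ) * ∫ θ in (-π)..π, (g θ : ℂ) * Ek k (θ - α)‖ ≤
      2 * π * ((1 + |k|) * (s * M) ^ 2) := by
  have hM0 : 0 ≤ M := (abs_nonneg _).trans (hM 0)
  have hpi := Real.pi_pos
  unfold Ek
  rw [Psi_sub hg, ← intervalIntegral.integral_const_mul, ← intervalIntegral.integral_sub
    ((mid_cont hg s k α).intervalIntegrable _ _) (Continuous.intervalIntegrable (by fun_prop) _ _)]
  have h2 := intervalIntegral.norm_integral_le_of_norm_le_const (a := -π) (b := π)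
    (C := (1 + |k|) * (s * M) ^ 2) (f := fun θ : ℝ => (∫ r in (1 : ℝ)..(1 + s * g θ),
        (r : ℂ) * Complex.exp (((r * (k * Real.cos (θ - α)) : ℝ) : ℂ) * Complex.I)) -
        (s : ℂ) * ((g θ : ℂ) * Complex.exp (((k * Real.cos (θ - α) : ℝ) : ℂ) * Complex.I)))
    (fun θ _ => by
      have h3 := int1 (s * g θ) (k * Real.cos (θ - α))
      have h4 : ((s * g θ : ℝ) : ℂ) * Complex.exp (((k * Real.cos (θ - α) : ℝ) : ℂ) * Complex.I) =
          (s : ℂ) * ((g θ : ℂ) * Complex.exp (((k * Real.cos (θ - α) : ℝ) : ℂ) * Complex.I)) := by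
        push_cast; ring
      rw [h4] at h3
      refine h3.trans ?_
      have h5 : |k * Real.cos (θ - α)| ≤ |k| := by
        rw [abs_mul]
        exact mul_le_of_le_one_right (abs_nonneg _) (Real.abs_cos_le_one _)
      have h6 : (s * g θ) ^ 2 ≤ (s * M) ^ 2 := by
        rw [mul_pow, mul_pow, ← sq_abs (g θ)]
        have := hM θ
        gcongr
      gcongr)
  refine h2.trans (le_of_eq ?_)
  have habs : |π - -π| = 2 * π := by
    rw [sub_neg_eq_add, abs_of_pos (by linarith)]; ring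
  rw [habs]
  ring

lemma Psi_exp2 {g : ℝ → ℝ} (hg : Continuous g) {M : ℝ} (hM : ∀ θ, |g θ| ≤ M) (s k α : ℝ) :
    ‖Psi (fun θ => 1 + s * g θ) k α - Psi (fun _ => 1) k α -
      ((s : ℂ) * (∫ θ in (-π)..π, (g θ : ℂ) * Ek k (θ - α)) +
       ((s ^ 2 / 2 : ℝ) : ℂ) * ∫ θ in (-π)..π, ((g θ : ℂ) ^ 2) *
        ((1 + ((k * Real.cos (θ - α) : ℝ) : ℂ) * Complex.I) * Ek k (θ - α)))‖ ≤
      2 * π * ((3 * k ^ 2 + |k|) * |s * M| ^ 3) := by
  have hM0 : 0 ≤ M := (abs_nonneg _).trans (hM 0)
  have hpi := Real.pi_pos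
  unfold Ek
  rw [Psi_sub hg, ← intervalIntegral.integral_const_mul, ← intervalIntegral.integral_const_mul,
    ← intervalIntegral.integral_add (Continuous.intervalIntegrable (by fun_prop) _ _)
    (Continuous.intervalIntegrable (by fun_prop) _ _),
    ← intervalIntegral.integral_sub
    ((mid_cont hg s k α).intervalIntegrable _ _) (Continuous.intervalIntegrable (by fun_prop) _ _)]
  have h2 := intervalIntegral.norm_integral_le_of_norm_le_const (a := -π) (b := π)
    (C := (3 * k ^ 2 + |k|) * |s * M| ^ 3) (f := fun θ : ℝ => (∫ r in (1 : ℝ)..(1 + s * g θ),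
        (r : ℂ) * Complex.exp (((r * (k * Real.cos (θ - α)) : ℝ) : ℂ) * Complex.I)) -
        ((s : ℂ) * ((g θ : ℂ) * Complex.exp (((k * Real.cos (θ - α) : ℝ) : ℂ) * Complex.I)) +
        ((s ^ 2 / 2 : ℝ) : ℂ) * (((g θ : ℂ) ^ 2) *
        ((1 + ((k * Real.cos (θ - α) : ℝ) : ℂ) * Complex.I) *
          Complex.exp (((k * Real.cos (θ - α) : ℝ) : ℂ) * Complex.I)))))
    (fun θ _ => by
      have h3 := int2 (s * g θ) (k * Real.cos (θ - α))
      have h4 : ((s * g θ : ℝ) : ℂ) * Complex.exp (((k * Real.cos (θ - α) : ℝ) : ℂ) * Complex.I) +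
          (((s * g θ) ^ 2 / 2 : ℝ) : ℂ) * ((1 + ((k * Real.cos (θ - α) : ℝ) : ℂ) * Complex.I) *
          Complex.exp (((k * Real.cos (θ - α) : ℝ) : ℂ) * Complex.I)) =
          (s : ℂ) * ((g θ : ℂ) * Complex.exp (((k * Real.cos (θ - α) : ℝ) : ℂ) * Complex.I)) +
        ((s ^ 2 / 2 : ℝ) : ℂ) * (((g θ : ℂ) ^ 2) *
        ((1 + ((k * Real.cos (θ - α) : ℝ) : ℂ) * Complex.I) *
          Complex.exp (((k * Real.cos (θ - α) : ℝ) : ℂ) * Complex.I))) := by
        push_cast; ring
      rw [h4] at h3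
      refine h3.trans ?_
      have h5 : |k * Real.cos (θ - α)| ≤ |k| := by
        rw [abs_mul]
        exact mul_le_of_le_one_right (abs_nonneg _) (Real.abs_cos_le_one _)
      have h5' : (k * Real.cos (θ - α)) ^ 2 ≤ k ^ 2 := by
        rw [← sq_abs, ← sq_abs k]
        gcongr
      have h6 : |s * g θ| ≤ |s * M| := by
        rw [abs_mul, abs_mul, abs_of_nonneg hM0]
        have := hM θ
        gcongr
      gcongr)
  refine h2.trans (le_of_eq ?_)
  have habs : |π - -π| = 2 * π := by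
    rw [sub_neg_eq_add, abs_of_pos (by linarith)]; ring
  rw [habs]
  ring

lemma per_shift {F : ℝ → ℂ} (hF : Function.Periodic F (2 * π)) (α : ℝ) :
    ∫ θ in (-π)..π, F (θ - α) = ∫ θ in (-π)..π, F θ := by
  rw [intervalIntegral.integral_comp_sub_right (fun x => F x) α]
  have h := hF.intervalIntegral_add_eq (-π - α) (-π)
  rw [show -π - α + 2 * π = π - α by ring, show -π + 2 * π = π by ring] at h
  exact h

lemma per_refl {F : ℝ → ℂ} (hF : Function.Periodic F (2 * π)) (θ : ℝ) :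
    ∫ α in (-π)..π, F (θ - α) = ∫ u in (-π)..π, F u := by
  rw [intervalIntegral.integral_comp_sub_left (fun x => F x) θ]
  have h := hF.intervalIntegral_add_eq (θ - π) (-π)
  rw [show θ - π + 2 * π = θ + π by ring, show -π + 2 * π = π by ring] at h
  rw [sub_neg_eq_add]
  exact h

lemma Psi_radial (k α : ℝ) : Psi (fun _ => 1) k α = Psi (fun _ => 1) k 0 := by
  unfold Psi
  have hF : Function.Periodic (fun u : ℝ => ∫ r in (0 : ℝ)..1,
      (r : ℂ) * Complex.exp (((r * (k * Real.cos u) : ℝ) : ℂ) * Complex.I)) (2 * π) := by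
    intro u
    simp only [Real.cos_add_two_pi]
  have h := per_shift hF α
  simp only [sub_zero]
  exact h

lemma exp_int {m : ℕ} (hm : 1 ≤ m) :
    ∫ α in (-π)..π, Complex.exp (-(m * α : ℝ) * Complex.I) = 0 := by
  have hm0 : (m : ℂ) ≠ 0 := by
    have : m ≠ 0 := by omega
    exact_mod_cast this
  have hc : -(m : ℂ) * Complex.I ≠ 0 := by simp [hm0]
  have h := integral_exp_mul_complex (a := -π) (b := π) hc
  have e : ∀ α : ℝ, Complex.exp (-(m * α : ℝ) * Complex.I) = Complex.exp (-(m : ℂ) * Complex.I * α) := by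
    intro α
    congr 1
    push_cast; ring
  simp_rw [e]
  rw [h]
  have h1 : Complex.exp (-(m : ℂ) * Complex.I * ((-π : ℝ) : ℂ)) =
      Complex.exp (-(m : ℂ) * Complex.I * (π : ℂ)) := by
    have h2 : -(m : ℂ) * Complex.I * ((-π : ℝ) : ℂ) =
        -(m : ℂ) * Complex.I * (π : ℂ) + (m : ℂ) * (2 * π * Complex.I) := by
      push_cast; ring
    rw [h2, Complex.exp_add, Complex.exp_nat_mul_two_pi_mul_I, mul_one]
  rw [h1, sub_self, zero_div]

lemma conv_lemma {h w : ℝ → ℂ} (hh : Continuous h) (hw : Continuous w)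
    (hwp : Function.Periodic w (2 * π)) (m : ℕ) :
    ∫ α in (-π)..π, Complex.exp (-(m * α : ℝ) * Complex.I) * ∫ θ in (-π)..π, h θ * w (θ - α) =
      (∫ θ in (-π)..π, h θ * Complex.exp (-(m * θ : ℝ) * Complex.I)) *
        ∫ u in (-π)..π, Complex.exp (((m * u : ℝ) : ℂ) * Complex.I) * w u := by
  have h1 : ∀ α : ℝ, Complex.exp (-(m * α : ℝ) * Complex.I) * ∫ θ in (-π)..π, h θ * w (θ - α) =
      ∫ θ in (-π)..π, h θ * Complex.exp (-(m * θ : ℝ) * Complex.I) *
        (Complex.exp (((m * (θ - α) : ℝ) : ℂ) * Complex.I) * w (θ - α)) := by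
    intro α
    rw [← intervalIntegral.integral_const_mul]
    apply intervalIntegral.integral_congr
    intro θ _
    simp only
    have e : Complex.exp (-(m * α : ℝ) * Complex.I) = Complex.exp (-(m * θ : ℝ) * Complex.I) *
        Complex.exp (((m * (θ - α) : ℝ) : ℂ) * Complex.I) := by
      rw [← Complex.exp_add]
      congr 1
      push_cast; ring
    rw [e]; ring
  simp_rw [h1]
  rw [intervalIntegral_intervalIntegral_swap]
  · have hF : Function.Periodic (fun u : ℝ => Complex.exp (((m * u : ℝ) : ℂ) * Complex.I) * w u)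
        (2 * π) := by
      intro u
      simp only
      rw [hwp u]
      congr 1
      have e : (((m * (u + 2 * π) : ℝ) : ℂ) * Complex.I) = ((m * u : ℝ) : ℂ) * Complex.I +
          (m : ℂ) * (2 * π * Complex.I) := by
        push_cast; ring
      rw [e, Complex.exp_add, Complex.exp_nat_mul_two_pi_mul_I, mul_one]
    have h2 : ∀ θ : ℝ, ∫ α in (-π)..π, h θ * Complex.exp (-(m * θ : ℝ) * Complex.I) *
        (Complex.exp (((m * (θ - α) : ℝ) : ℂ) * Complex.I) * w (θ - α)) =
        h θ * Complex.exp (-(m * θ : ℝ) * Complex.I) *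
        ∫ u in (-π)..π, Complex.exp (((m * u : ℝ) : ℂ) * Complex.I) * w u := by
      intro θ
      rw [intervalIntegral.integral_const_mul, per_refl hF θ]
    simp_rw [h2]
    rw [intervalIntegral.integral_mul_const]
  · have hc : Continuous (Function.uncurry (fun α θ : ℝ =>
        h θ * Complex.exp (-(m * θ : ℝ) * Complex.I) *
        (Complex.exp (((m * (θ - α) : ℝ) : ℂ) * Complex.I) * w (θ - α)))) := by
      unfold Function.uncurry
      fun_prop
    exact (hc.continuousOn.integrableOn_compact (K := uIcc (-π) π ×ˢ uIcc (-π) π)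
      (isCompact_uIcc.prod isCompact_uIcc)).mono_set (prod_mono uIoc_subset_uIcc uIoc_subset_uIcc)

lemma Ek_cont (k : ℝ) : Continuous (Ek k) := by
  unfold Ek; fun_prop

lemma Ek_per (k : ℝ) : Function.Periodic (Ek k) (2 * π) := by
  intro u
  unfold Ek
  rw [Real.cos_add_two_pi]

lemma EE_eq (m : ℕ) (k : ℝ) :
    ∫ u in (-π)..π, Complex.exp (((m * u : ℝ) : ℂ) * Complex.I) * Ek k u = EE m k := by
  unfold EE
  apply intervalIntegral.integral_congr
  intro u _
  simp only [Ek]
  rw [← Complex.exp_add]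
  congr 1
  push_cast; ring

lemma EE_cont (m : ℕ) : Continuous (EE m) := by
  unfold EE
  apply intervalIntegral.continuous_parametric_intervalIntegral_of_continuous'
  unfold Function.uncurry
  fun_prop

lemma EE'_cont (m : ℕ) : Continuous (EE' m) := by
  unfold EE'
  apply intervalIntegral.continuous_parametric_intervalIntegral_of_continuous'
  unfold Function.uncurry
  fun_prop

lemma Psi_cont1 : Continuous (fun k : ℝ => Psi (fun _ => 1) k 0) := by
  unfold Psi
  apply intervalIntegral.continuous_parametric_intervalIntegral_of_continuous'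
  unfold Function.uncurry
  apply intervalIntegral.continuous_parametric_intervalIntegral_of_continuous'
  unfold Function.uncurry
  fun_prop

lemma Psi_cont_alpha {g : ℝ → ℝ} (hg : Continuous g) (s k : ℝ) :
    Continuous (fun α : ℝ => Psi (fun θ => 1 + s * g θ) k α) := by
  unfold Psi
  apply intervalIntegral.continuous_parametric_intervalIntegral_of_continuous'
  unfold Function.uncurry
  apply intervalIntegral.continuous_parametric_intervalIntegral_of_continuous _ (by fun_prop)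
  unfold Function.uncurry
  fun_prop

lemma ball_star : ball (0 : ℂ) 1 = starDom (fun _ => 1) := by
  ext z
  simp [starDom]

lemma star_area (hpol : S_pol) {g : ℝ → ℝ} (hg : Continuous g) {M s : ℝ} (hM : ∀ θ, |g θ| ≤ M)
    (hs : 0 ≤ s) (hsM : s * M ≤ 1 / 2) :
    |volume.real (starDom fun θ => 1 + s * g θ) - π| ≤ 4 * π * (s * M) := by
  have hpi := Real.pi_pos
  have hM0 : 0 ≤ M := (abs_nonneg _).trans (hM 0)
  have hb : ∀ θ, |s * g θ| ≤ s * M := by
    intro θ
    rw [abs_mul, abs_of_nonneg hs]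
    exact mul_le_mul_of_nonneg_left (hM θ) hs
  rw [hpol.2.2.1 _ (by fun_prop) (fun θ => by
    have := (abs_le.mp (hb θ)).1
    linarith)]
  have h1 : (∫ θ in (-π)..π, (1 + s * g θ) ^ 2 / 2) - π =
      ∫ θ in (-π)..π, ((1 + s * g θ) ^ 2 / 2 - 1 / 2) := by
    rw [intervalIntegral.integral_sub (Continuous.intervalIntegrable (by fun_prop) _ _)
      (Continuous.intervalIntegrable (by fun_prop) _ _), intervalIntegral.integral_const,
      smul_eq_mul]
    ring
  rw [h1, ← Real.norm_eq_abs]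
  have h2 := intervalIntegral.norm_integral_le_of_norm_le_const (a := -π) (b := π)
    (C := 2 * (s * M)) (f := fun θ : ℝ => (1 + s * g θ) ^ 2 / 2 - 1 / 2) (fun θ _ => by
      rw [Real.norm_eq_abs]
      have e : (1 + s * g θ) ^ 2 / 2 - 1 / 2 = s * g θ * (1 + s * g θ / 2) := by ring
      rw [e, abs_mul]
      have h3 := hb θ
      have h4 : |1 + s * g θ / 2| ≤ 2 := by
        have := abs_le.mp h3
        rw [abs_le]
        constructor <;> linarith
      calc |s * g θ| * |1 + s * g θ / 2| ≤ (s * M) * 2 := by gcongr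
        _ = 2 * (s * M) := by ring)
  refine h2.trans (le_of_eq ?_)
  have habs : |π - -π| = 2 * π := by
    rw [sub_neg_eq_add, abs_of_pos (by linarith)]; ring
  rw [habs]
  ring

end Q285SF
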