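import Pool.Agent.Q249.SF.Stm

/-! Project SF (helper249), job FUN (helper285): extension of one coefficient functional. -/

set_option autoImplicit false

open MeasureTheory Real Set Filter Topology
open scoped FourierTransform SchwartzMap BoundedContinuousFunction

namespace Q285.SF

open Q249.SF

theorem dw_nonneg (b e : ℕ) (N : ℝ) (hN : 0 < N) (r : ℕ) (n : ℤ) : 0 ≤ dw b e N r n := by
  unfold dw
  have h1 : (0 : ℝ) ≤ 1 + |(n : ℝ)| := by positivity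
  have h2 : (0 : ℝ) ≤ min 1 ((1 + |(n : ℝ)|) ^ e / N) := le_min zero_le_one (by positivity)
  positivity

theorem dw_le (b e : ℕ) (N : ℝ) (hN : 0 < N) (r : ℕ) (n : ℤ) :
    dw b e N r n ≤ (1 + |(n : ℝ)|) ^ b := by
  unfold dw
  have h2 : (0 : ℝ) ≤ min 1 ((1 + |(n : ℝ)|) ^ e / N) := le_min zero_le_one (by positivity)
  have h3 : min 1 ((1 + |(n : ℝ)|) ^ e / N) ^ r ≤ 1 := pow_le_one₀ h2 (min_le_left _ _)
  exact mul_le_of_le_one_right (by positivity) h3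

theorem wd_bd (b e : ℕ) (N : ℝ) (hN : 0 < N) (r : ℕ) (c : Rapid × Rapid) (i : ℤ ⊕ ℤ) :
    ‖Sum.elim (fun n : ℤ => (dw b e N r n : ℂ) * c.1 n) (fun n : ℤ => (dw b e N r n : ℂ) * c.2 n) i‖ ≤
      Rapid.sn b c.1 + Rapid.sn b c.2 := by
  have h1 : ∀ d : Rapid, 0 ≤ Rapid.sn b d := fun d => apply_nonneg _ _
  have h2 : ∀ (d : Rapid) (n : ℤ), ‖(dw b e N r n : ℂ) * d n‖ ≤ Rapid.sn b d := by
    intro d n
    rw [norm_mul, Complex.norm_real, Real.norm_of_nonneg (dw_nonneg b e N hN r n)]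
    exact (mul_le_mul_of_nonneg_right (dw_le b e N hN r n) (norm_nonneg _)).trans (Rapid.le_sn d b n)
  rcases i with n | n
  · simp only [Sum.elim_inl]
    linarith [h2 c.1 n, h1 c.2]
  · simp only [Sum.elim_inr]
    linarith [h2 c.2 n, h1 c.1]

/-- the weighted pair of sequences as a bounded function -/
noncomputable def wd (b e : ℕ) (N : ℝ) (hN : 0 < N) (r : ℕ) : (Rapid × Rapid) →ₗ[ℂ] ((ℤ ⊕ ℤ) →ᵇ ℂ) where
  toFun c := BoundedContinuousFunction.ofNormedAddCommGroupDiscrete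
    (Sum.elim (fun n : ℤ => (dw b e N r n : ℂ) * c.1 n) (fun n : ℤ => (dw b e N r n : ℂ) * c.2 n))
    (Rapid.sn b c.1 + Rapid.sn b c.2) (wd_bd b e N hN r c)
  map_add' c d := by
    ext i
    rcases i with n | n
    · simp [mul_add]
    · simp [mul_add]
  map_smul' a c := by
    ext i
    rcases i with n | n
    · simp; ring
    · simp; ring

/-- the analysis map -/
noncomputable def an (x y : ℤ → ℝ)
    (h : ∀ f : 𝓢(ℝ, ℂ), (fun n => f (x n)) ∈ rapidSub ∧ (fun n => (𝓕 f : 𝓢(ℝ, ℂ)) (y n)) ∈ rapidSub) :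
    𝓢(ℝ, ℂ) →ₗ[ℂ] (Rapid × Rapid) where
  toFun f := ((⟨fun n => f (x n), (h f).1⟩ : rapidSub), (⟨fun n => (𝓕 f : 𝓢(ℝ, ℂ)) (y n), (h f).2⟩ : rapidSub))
  map_add' f g := by
    refine Prod.ext (Subtype.ext (funext fun n => ?_)) (Subtype.ext (funext fun n => ?_))
    · rfl
    · show (𝓕 (f + g) : 𝓢(ℝ, ℂ)) (y n) = (𝓕 f : 𝓢(ℝ, ℂ)) (y n) + (𝓕 g : 𝓢(ℝ, ℂ)) (y n)
      rw [FourierTransform.fourier_add]
      rfl
  map_smul' a f := by
    refine Prod.ext (Subtype.ext (funext fun n => ?_)) (Subtype.ext (funext fun n => ?_))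
    · rfl
    · show (𝓕 (a • f) : 𝓢(ℝ, ℂ)) (y n) = a • (𝓕 f : 𝓢(ℝ, ℂ)) (y n)
      rw [FourierTransform.fourier_smul]
      rfl

theorem t_FUN : Q249.SF.S_EXT → Q249.SF.S_FUN := by
  intro hE x y hxy b e r N D hN hD l hl
  have hN0 : 0 < N := by linarith
  obtain ⟨Ψ, hΨn, hΨ⟩ := hE 𝓢(ℝ, ℂ) ((ℤ ⊕ ℤ) →ᵇ ℂ) ((wd b e N hN0 r).comp (an x y hxy)) l D hD (by
    intro f
    refine hl f _ (norm_nonneg _) (fun n => ?_) (fun n => ?_)
    · have h := ((wd b e N hN0 r) (an x y hxy f)).norm_coe_le_norm (Sum.inl n)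
      have h2 : ((wd b e N hN0 r) (an x y hxy f)) (Sum.inl n) = (dw b e N r n : ℂ) * f (x n) := rfl
      rw [h2, norm_mul, Complex.norm_real, Real.norm_of_nonneg (dw_nonneg b e N hN0 r n)] at h
      exact h
    · have h := ((wd b e N hN0 r) (an x y hxy f)).norm_coe_le_norm (Sum.inr n)
      have h2 : ((wd b e N hN0 r) (an x y hxy f)) (Sum.inr n) =
          (dw b e N r n : ℂ) * (𝓕 f : 𝓢(ℝ, ℂ)) (y n) := rfl
      rw [h2, norm_mul, Complex.norm_real, Real.norm_of_nonneg (dw_nonneg b e N hN0 r n)] at h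
      exact h)
  refine ⟨(Ψ : ((ℤ ⊕ ℤ) →ᵇ ℂ) →ₗ[ℂ] ℂ).comp (wd b e N hN0 r), ?_, ?_⟩
  · intro c B hB h1 h2
    have h3 : ‖wd b e N hN0 r c‖ ≤ B := by
      rw [BoundedContinuousFunction.norm_le hB]
      intro i
      rcases i with n | n
      · have h2 : ((wd b e N hN0 r) c) (Sum.inl n) = (dw b e N r n : ℂ) * c.1 n := rfl
        rw [h2, norm_mul, Complex.norm_real, Real.norm_of_nonneg (dw_nonneg b e N hN0 r n)]
        exact h1 n
      · have h3 : ((wd b e N hN0 r) c) (Sum.inr n) = (dw b e N r n : ℂ) * c.2 n := rfl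
        rw [h3, norm_mul, Complex.norm_real, Real.norm_of_nonneg (dw_nonneg b e N hN0 r n)]
        exact h2 n
    have h4 : ‖Ψ (wd b e N hN0 r c)‖ ≤ ‖Ψ‖ * ‖wd b e N hN0 r c‖ := Ψ.le_opNorm _
    show ‖Ψ (wd b e N hN0 r c)‖ ≤ D * B
    exact h4.trans (mul_le_mul hΨn h3 (norm_nonneg _) hD)
  · intro f c h1 h2
    have hc : c = an x y hxy f :=
      Prod.ext (Subtype.ext (funext fun n => h1 n)) (Subtype.ext (funext fun n => h2 n))
    show Ψ (wd b e N hN0 r c) = l f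
    rw [hc]
    exact hΨ f

end Q285.SF
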