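import Mathlib
import Pool.Agent.Q90.SF.Stm
import Pool.Agent.Q285.SF.Exp

/-! # First order expansion at the disc (lemma job LIN of project SF of helper90, helper285) -/

set_option autoImplicit false

open MeasureTheory Metric Set Filter Topology
open scoped Real

namespace Q285SF

open Q90.SF

lemma real_sub_le {A B : Set ℂ} (hA : volume A ≠ ⊤) (hB : volume B ≠ ⊤) :
    |volume.real A - volume.real B| ≤ volume.real (symmDiff A B) := by
  have hAB : volume (symmDiff A B) ≠ ⊤ := measure_symmDiff_ne_top hA hB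
  have h1 : volume.real A ≤ volume.real B + volume.real (symmDiff A B) := by
    refine (measureReal_mono (s₂ := B ∪ symmDiff A B) ?_ (measure_union_ne_top hB hAB)).trans
      (measureReal_union_le _ _)
    intro x hx
    by_cases h : x ∈ B
    · exact Or.inl h
    · exact Or.inr (Or.inl ⟨hx, h⟩)
  have h2 : volume.real B ≤ volume.real A + volume.real (symmDiff A B) := by
    refine (measureReal_mono (s₂ := A ∪ symmDiff A B) ?_ (measure_union_ne_top hA hAB)).trans
      (measureReal_union_le _ _)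
    intro x hx
    by_cases h : x ∈ A
    · exact Or.inl h
    · exact Or.inr (Or.inr ⟨hx, h⟩)
  rw [abs_le]
  constructor <;> linarith

lemma ft_sub_le {A B : Set ℂ} (hA : volume A ≠ ⊤) (hB : volume B ≠ ⊤) (hAm : MeasurableSet A)
    (hBm : MeasurableSet B) (ξ : ℂ) : ‖ft A ξ - ft B ξ‖ ≤ volume.real (symmDiff A B) := by
  unfold ft
  set f : ℂ → ℂ := fun x => Complex.exp (((inner ℝ ξ x : ℝ) : ℂ) * Complex.I) with hf
  have hfc : Continuous f := by rw [hf]; fun_prop
  have hfn : ∀ x, ‖f x‖ ≤ 1 := fun x => by rw [hf]; exact (norm_e _).le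
  have hi : ∀ S : Set ℂ, volume S ≠ ⊤ → IntegrableOn f S := by
    intro S hS
    have : IsFiniteMeasure (volume.restrict S) := ⟨by
      rw [Measure.restrict_apply_univ]; exact hS.lt_top⟩
    exact Integrable.of_bound hfc.aestronglyMeasurable 1 (Eventually.of_forall hfn)
  have e1 : ∫ x in A, f x = (∫ x in A ∩ B, f x) + ∫ x in A \ B, f x :=
    (integral_inter_add_sdiff hBm (hi A hA)).symm
  have e2 : ∫ x in B, f x = (∫ x in B ∩ A, f x) + ∫ x in B \ A, f x :=
    (integral_inter_add_sdiff hAm (hi B hB)).symm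
  rw [e1, e2, inter_comm B A]
  have e3 : (∫ x in A ∩ B, f x) + (∫ x in A \ B, f x) -
      ((∫ x in A ∩ B, f x) + ∫ x in B \ A, f x) = (∫ x in A \ B, f x) - ∫ x in B \ A, f x := by ring
  rw [e3]
  have hn : ∀ S : Set ℂ, volume S ≠ ⊤ → ‖∫ x in S, f x‖ ≤ volume.real S := by
    intro S hS
    have := norm_setIntegral_le_of_norm_le_const (f := f) (C := 1) hS.lt_top (fun x _ => hfn x)
    rwa [one_mul] at this
  have hA' : volume (A \ B) ≠ ⊤ := measure_ne_top_of_subset sdiff_subset hA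
  have hB' : volume (B \ A) ≠ ⊤ := measure_ne_top_of_subset sdiff_subset hB
  refine (norm_sub_le _ _).trans ?_
  rw [measureReal_symmDiff_eq hAm hBm hA hB]
  exact add_le_add (hn _ hA') (hn _ hB')

lemma per_bdd {g : ℝ → ℝ} (hg : Continuous g) (hper : Function.Periodic g (2 * π)) :
    ∃ M : ℝ, 0 < M ∧ ∀ θ, |g θ| ≤ M := by
  obtain ⟨M, hM⟩ := (isCompact_Icc (a := (0:ℝ)) (b := 2 * π)).exists_bound_of_continuousOn
    hg.continuousOn
  refine ⟨|M| + 1, by positivity, fun θ => ?_⟩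
  obtain ⟨y, hy, hyg⟩ := hper.exists_mem_Ico₀ (by positivity) θ
  rw [hyg]
  have h1 := hM y ⟨hy.1, hy.2.le⟩
  rw [Real.norm_eq_abs] at h1
  linarith [le_abs_self M]

lemma star_sub_ball {g : ℝ → ℝ} {M s : ℝ} (hM : ∀ θ, |g θ| ≤ M) (hs : 0 ≤ s)
    (hsM : s * M ≤ 1 / 2) : (starDom fun θ => 1 + s * g θ) ⊆ ball 0 2 := by
  intro z hz
  have hz' : ‖z‖ < 1 + s * g z.arg := hz
  have h1 : s * g z.arg ≤ s * M := mul_le_mul_of_nonneg_left ((le_abs_self _).trans (hM _)) hs
  rw [mem_ball_zero_iff]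
  linarith

/-- the transform of the expansions against `e^{-imα}` -/
lemma test1 {g : ℝ → ℝ} (hg : Continuous g) {M : ℝ} (hM : ∀ θ, |g θ| ≤ M) {m : ℕ} (hm : 1 ≤ m)
    (s k B : ℝ) (hB : ∀ α, ‖Psi (fun θ => 1 + s * g θ) k α‖ ≤ B) :
    ‖(s : ℂ) * ((∫ φ in (-π)..π, (g φ : ℂ) * Complex.exp (-(m * φ : ℝ) * Complex.I)) * EE m k)‖ ≤
      2 * π * (B + 2 * π * ((1 + |k|) * (s * M) ^ 2)) := by
  have hpi := Real.pi_pos
  have hc := conv_lemma (h := fun θ => (g θ : ℂ)) (w := Ek k) (by fun_prop) (Ek_cont k) (Ek_per k) m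
  rw [EE_eq] at hc
  rw [← hc, ← intervalIntegral.integral_const_mul]
  have hexp := exp_int hm
  -- subtract the radial part
  have h0 : ∫ α in (-π)..π, Complex.exp (-(m * α : ℝ) * Complex.I) * Psi (fun _ => 1) k 0 = 0 := by
    rw [intervalIntegral.integral_mul_const, hexp, zero_mul]
  have hcc : Continuous (fun α : ℝ => (s : ℂ) * (Complex.exp (-(m * α : ℝ) * Complex.I) *
      ∫ θ in (-π)..π, (g θ : ℂ) * Ek k (θ - α))) := by
    have h1 : Continuous (fun α : ℝ => ∫ θ in (-π)..π, (g θ : ℂ) * Ek k (θ - α)) := by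
      apply intervalIntegral.continuous_parametric_intervalIntegral_of_continuous'
      unfold Function.uncurry Ek
      fun_prop
    fun_prop
  have h1 : ∫ α in (-π)..π, (s : ℂ) * (Complex.exp (-(m * α : ℝ) * Complex.I) *
      ∫ θ in (-π)..π, (g θ : ℂ) * Ek k (θ - α)) =
      ∫ α in (-π)..π, ((s : ℂ) * (Complex.exp (-(m * α : ℝ) * Complex.I) *
      ∫ θ in (-π)..π, (g θ : ℂ) * Ek k (θ - α)) +
      Complex.exp (-(m * α : ℝ) * Complex.I) * Psi (fun _ => 1) k 0) := by
    rw [intervalIntegral.integral_add (hcc.intervalIntegrable _ _)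
      (Continuous.intervalIntegrable (by fun_prop) _ _), h0, add_zero]
  rw [h1]
  have h2 := intervalIntegral.norm_integral_le_of_norm_le_const (a := -π) (b := π)
    (C := B + 2 * π * ((1 + |k|) * (s * M) ^ 2)) (f := fun α : ℝ =>
      ((s : ℂ) * (Complex.exp (-(m * α : ℝ) * Complex.I) *
      ∫ θ in (-π)..π, (g θ : ℂ) * Ek k (θ - α)) +
      Complex.exp (-(m * α : ℝ) * Complex.I) * Psi (fun _ => 1) k 0)) (fun α _ => by
      have e : ((s : ℂ) * (Complex.exp (-(m * α : ℝ) * Complex.I) *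
        ∫ θ in (-π)..π, (g θ : ℂ) * Ek k (θ - α)) +
        Complex.exp (-(m * α : ℝ) * Complex.I) * Psi (fun _ => 1) k 0) =
        Complex.exp (((-(m * α) : ℝ) : ℂ) * Complex.I) * (Psi (fun θ => 1 + s * g θ) k α -
        (Psi (fun θ => 1 + s * g θ) k α - Psi (fun _ => 1) k α -
          (s : ℂ) * ∫ θ in (-π)..π, (g θ : ℂ) * Ek k (θ - α))) := by
        rw [Psi_radial k α]
        push_cast
        ring
      rw [e, norm_mul, norm_e, one_mul]
      refine (norm_sub_le _ _).trans ?_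
      exact add_le_add (hB α) (Psi_exp1 hg hM s k α))
  refine h2.trans (le_of_eq ?_)
  have habs : |π - -π| = 2 * π := by
    rw [sub_neg_eq_add, abs_of_pos (by linarith)]; ring
  rw [habs]
  ring

theorem lin : S_lin := by
  intro hpol g D κ C s0 hg hper hκ hs0 hD
  have hpi := Real.pi_pos
  obtain ⟨M, hM0, hM⟩ := per_bdd hg hper
  have hC0 : 0 ≤ C := by
    have h1 := (hD (s0 / 2) (by linarith) (by linarith)).2.2.1
    have h2 : 0 ≤ C * (s0 / 2) ^ 2 := measureReal_nonneg.trans h1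
    by_contra h
    push Not at h
    have : C * (s0 / 2) ^ 2 < 0 := mul_neg_of_neg_of_pos h (by positivity)
    linarith
  -- small s
  have hsm : ∀ᶠ s : ℝ in 𝓝[>] 0, 0 < s ∧ s < s0 ∧ s * M ≤ 1 / 2 := by
    filter_upwards [Ioo_mem_nhdsGT (show (0:ℝ) < min s0 (1 / (2 * M)) by positivity)] with s hs
    refine ⟨hs.1, hs.2.trans_le (min_le_left _ _), ?_⟩
    have : s ≤ 1 / (2 * M) := (hs.2.trans_le (min_le_right _ _)).le
    calc s * M ≤ 1 / (2 * M) * M := by gcongr
      _ = 1 / 2 := by field_simp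
  have hfinD : ∀ s, 0 < s → s < s0 → volume (D s) ≠ ⊤ := fun s h1 h2 =>
    measure_ne_top_of_subset (hD s h1 h2).2.1 measure_ball_lt_top.ne
  have hfinG : ∀ s, 0 < s → s * M ≤ 1 / 2 → volume (starDom fun θ => 1 + s * g θ) ≠ ⊤ :=
    fun s h1 h2 => measure_ne_top_of_subset (star_sub_ball hM h1.le h2) measure_ball_lt_top.ne
  have hA : Tendsto (fun s => volume.real (D s)) (𝓝[>] 0) (𝓝 π) := by
    rw [tendsto_iff_dist_tendsto_zero]
    have hlim : Tendsto (fun s : ℝ => C * s ^ 2 + 4 * π * (s * M)) (𝓝[>] 0) (𝓝 0) := by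
      apply tendsto_nhdsWithin_of_tendsto_nhds
      have hc : Continuous (fun s : ℝ => C * s ^ 2 + 4 * π * (s * M)) := by fun_prop
      have := hc.tendsto 0
      simpa using this
    refine squeeze_zero' (Eventually.of_forall fun _ => dist_nonneg) ?_ hlim
    filter_upwards [hsm] with s hs
    rw [Real.dist_eq]
    have h1 := real_sub_le (hfinD s hs.1 hs.2.1) (hfinG s hs.1 hs.2.2)
    have h2 := (hD s hs.1 hs.2.1).2.2.1
    have h3 := star_area hpol hg hM hs.1.le hs.2.2
    calc |volume.real (D s) - π| = |(volume.real (D s) - volume.real (starDom fun θ => 1 + s * g θ)) +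
          (volume.real (starDom fun θ => 1 + s * g θ) - π)| := by congr 1; ring
      _ ≤ _ := abs_add_le _ _
      _ ≤ C * s ^ 2 + 4 * π * (s * M) := by linarith
  set k0 : ℝ := √(κ / π) with hk0
  set ks : ℝ → ℝ := fun s => √(κ / volume.real (D s)) with hks
  have hk : Tendsto ks (𝓝[>] 0) (𝓝 k0) := by
    apply (Real.continuous_sqrt.tendsto _).comp
    exact tendsto_const_nhds.div hA hpi.ne'
  have hApos : ∀ᶠ s in 𝓝[>] (0:ℝ), 0 < volume.real (D s) := hA.eventually (lt_mem_nhds hpi)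
  have hmain : ∀ᶠ s in 𝓝[>] (0:ℝ), ∀ α, ‖Psi (fun θ => 1 + s * g θ) (ks s) α‖ ≤ C * s ^ 2 := by
    filter_upwards [hsm, hApos] with s hs hpos α
    have hR0 : ∀ θ, 0 ≤ 1 + s * g θ := by
      intro θ
      have h1 : |s * g θ| ≤ s * M := by
        rw [abs_mul, abs_of_pos hs.1]
        exact mul_le_mul_of_nonneg_left (hM θ) hs.1.le
      have := (abs_le.mp h1).1
      linarith [hs.2.2]
    have hRc : Continuous (fun θ => 1 + s * g θ) := by fun_prop
    rw [← ft_star hpol hRc hR0]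
    have hz : ft (D s) ((ks s : ℂ) * Complex.exp (α * Complex.I)) = 0 := by
      apply (hD s hs.1 hs.2.1).2.2.2
      rw [norm_mul, norm_e, mul_one, Complex.norm_real, Real.norm_eq_abs, sq_abs, hks]
      simp only
      rw [Real.sq_sqrt (by positivity)]
      field_simp
    have h2 := ft_sub_le (hfinD s hs.1 hs.2.1) (hfinG s hs.1 hs.2.2) (hD s hs.1 hs.2.1).1
      (hpol.1 _ hRc) ((ks s : ℂ) * Complex.exp (α * Complex.I))
    rw [hz, zero_sub, norm_neg] at h2
    exact h2.trans (hD s hs.1 hs.2.1).2.2.1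
  have hid : Tendsto (fun s : ℝ => s) (𝓝[>] 0) (𝓝 0) := tendsto_nhdsWithin_of_tendsto_nhds tendsto_id
  constructor
  · -- the zero order term
    have e0 : ft (ball 0 1) ((k0 : ℝ) : ℂ) = Psi (fun _ => 1) k0 0 := by
      have h1 := ft_star hpol (R := fun _ => 1) continuous_const (fun _ => zero_le_one) k0 0
      rw [← ball_star] at h1
      simpa using h1
    rw [e0]
    have h1 : Tendsto (fun s => Psi (fun _ => 1) (ks s) 0) (𝓝[>] 0) (𝓝 (Psi (fun _ => 1) k0 0)) :=
      (Psi_cont1.tendsto k0).comp hk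
    have h2 : Tendsto (fun s => Psi (fun _ => 1) (ks s) 0) (𝓝[>] 0) (𝓝 0) := by
      rw [tendsto_zero_iff_norm_tendsto_zero]
      have hlim : Tendsto (fun s : ℝ => C * s ^ 2 + 2 * π * ((1 + |ks s|) * (s * M) ^ 2) +
          s * (2 * π * M)) (𝓝[>] 0) (𝓝 (C * 0 ^ 2 + 2 * π * ((1 + |k0|) * (0 * M) ^ 2) +
          0 * (2 * π * M))) := by
        apply Tendsto.add
        · apply Tendsto.add
          · exact (hid.pow 2).const_mul C
          · exact ((hk.abs.const_add 1).mul ((hid.mul_const M).pow 2)).const_mul _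
        · exact hid.mul_const _
      have e : C * 0 ^ 2 + 2 * π * ((1 + |k0|) * (0 * M) ^ 2) + 0 * (2 * π * M) = 0 := by ring
      rw [e] at hlim
      refine squeeze_zero' (Eventually.of_forall fun _ => norm_nonneg _) ?_ hlim
      filter_upwards [hsm, hmain] with s hs hm
      have h3 := Psi_exp1 hg hM s (ks s) 0
      have h4 := hm 0
      have h5 : ‖(s : ℂ) * ∫ θ in (-π)..π, (g θ : ℂ) * Ek (ks s) (θ - 0)‖ ≤ s * (2 * π * M) := by
        rw [norm_mul, Complex.norm_real, Real.norm_eq_abs, abs_of_pos hs.1]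
        apply mul_le_mul_of_nonneg_left _ hs.1.le
        have h6 := intervalIntegral.norm_integral_le_of_norm_le_const (a := -π) (b := π)
          (C := M) (f := fun θ : ℝ => (g θ : ℂ) * Ek (ks s) (θ - 0)) (fun θ _ => by
            unfold Ek
            rw [norm_mul, norm_e, mul_one, Complex.norm_real, Real.norm_eq_abs]
            exact hM θ)
        refine h6.trans (le_of_eq ?_)
        rw [sub_neg_eq_add, abs_of_pos (by linarith)]
        ring
      have e : Psi (fun _ => 1) (ks s) 0 = Psi (fun θ => 1 + s * g θ) (ks s) 0 -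
          (Psi (fun θ => 1 + s * g θ) (ks s) 0 - Psi (fun _ => 1) (ks s) 0 -
          (s : ℂ) * ∫ θ in (-π)..π, (g θ : ℂ) * Ek (ks s) (θ - 0)) -
          (s : ℂ) * ∫ θ in (-π)..π, (g θ : ℂ) * Ek (ks s) (θ - 0) := by ring
      rw [e]
      refine (norm_sub_le _ _).trans ?_
      refine add_le_add ((norm_sub_le _ _).trans ?_) h5
      exact add_le_add h4 h3
    exact tendsto_nhds_unique h1 h2
  · intro m hm
    set G : ℂ := ∫ φ in (-π)..π, (g φ : ℂ) * Complex.exp (-(m * φ : ℝ) * Complex.I) with hG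
    have h1 : Tendsto (fun s => G * EE m (ks s)) (𝓝[>] 0) (𝓝 (G * EE m k0)) :=
      (((EE_cont m).tendsto k0).comp hk).const_mul G
    have h2 : Tendsto (fun s => G * EE m (ks s)) (𝓝[>] 0) (𝓝 0) := by
      rw [tendsto_zero_iff_norm_tendsto_zero]
      have hlim : Tendsto (fun s : ℝ => s * (2 * π * (C + 2 * π * ((1 + |ks s|) * M ^ 2))))
          (𝓝[>] 0) (𝓝 (0 * (2 * π * (C + 2 * π * ((1 + |k0|) * M ^ 2))))) := by
        apply hid.mul
        exact (((((hk.abs.const_add 1).mul_const (M ^ 2)).const_mul _).const_add C).const_mul _)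
      rw [zero_mul] at hlim
      refine squeeze_zero' (Eventually.of_forall fun _ => norm_nonneg _) ?_ hlim
      filter_upwards [hsm, hmain] with s hs hmm
      have h3 := test1 hg hM hm s (ks s) (C * s ^ 2) hmm
      rw [← hG, norm_mul, Complex.norm_real, Real.norm_eq_abs, abs_of_pos hs.1] at h3
      have e : 2 * π * (C * s ^ 2 + 2 * π * ((1 + |ks s|) * (s * M) ^ 2)) =
          s * (s * (2 * π * (C + 2 * π * ((1 + |ks s|) * M ^ 2)))) := by ring
      rw [e] at h3
      exact le_of_mul_le_mul_left h3 hs.1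
    exact tendsto_nhds_unique h1 h2

end Q285SF
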