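import Mathlib
import Pool.Agent.Q90.SF.Stm
import Pool.Agent.Q285.SF.Lin

/-! # Second order expansion at the disc (lemma job LIN2 of project SF of helper90, helper285) -/

set_option autoImplicit false

open MeasureTheory Metric Set Filter Topology
open scoped Real

namespace Q285SF

open Q90.SF

/-- the kernel of the second order term -/
noncomputable def Wk (k u : ℝ) : ℂ := (1 + ((k * Real.cos u : ℝ) : ℂ) * Complex.I) * Ek k u

lemma Wk_cont (k : ℝ) : Continuous (Wk k) := by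
  unfold Wk Ek; fun_prop

lemma Wk_per (k : ℝ) : Function.Periodic (Wk k) (2 * π) := by
  intro u
  unfold Wk Ek
  rw [Real.cos_add_two_pi]

lemma WEE (k : ℝ) :
    ∫ u in (-π)..π, Complex.exp ((((2 : ℕ) * u : ℝ) : ℂ) * Complex.I) * Wk k u =
      EE 2 k + k * EE' 2 k := by
  rw [← EE_eq]
  unfold EE'
  rw [← intervalIntegral.integral_const_mul, ← intervalIntegral.integral_add]
  · apply intervalIntegral.integral_congr
    intro u _
    simp only [Wk, Ek]
    have e : Complex.exp ((((2 : ℕ) * u + k * Real.cos u : ℝ) : ℂ) * Complex.I) =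
        Complex.exp ((((2 : ℕ) * u : ℝ) : ℂ) * Complex.I) *
          Complex.exp (((k * Real.cos u : ℝ) : ℂ) * Complex.I) := by
      rw [← Complex.exp_add]
      congr 1
      push_cast; ring
    rw [e]
    push_cast
    ring
  · apply Continuous.intervalIntegrable
    unfold Ek; fun_prop
  · apply Continuous.intervalIntegrable
    fun_prop

lemma ghat2 (a b c : ℝ) :
    ∫ θ in (-π)..π, ((a + b * Real.cos θ + c * Real.sin θ : ℝ) : ℂ) *
      Complex.exp (-((2 : ℕ) * θ : ℝ) * Complex.I) = 0 := by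
  have h1 := exp_int (m := 1) le_rfl
  have h2 := exp_int (m := 2) (by norm_num)
  have h3 := exp_int (m := 3) (by norm_num)
  have e : ∀ θ : ℝ, ((a + b * Real.cos θ + c * Real.sin θ : ℝ) : ℂ) *
      Complex.exp (-((2 : ℕ) * θ : ℝ) * Complex.I) =
      (a : ℂ) * Complex.exp (-((2 : ℕ) * θ : ℝ) * Complex.I) +
      (((b : ℂ) - c * Complex.I) / 2 * Complex.exp (-((1 : ℕ) * θ : ℝ) * Complex.I) +
      ((b : ℂ) + c * Complex.I) / 2 * Complex.exp (-((3 : ℕ) * θ : ℝ) * Complex.I)) := by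
    intro θ
    have e1 : Complex.exp (-((1 : ℕ) * θ : ℝ) * Complex.I) =
        Complex.exp ((θ : ℂ) * Complex.I) * Complex.exp (-((2 : ℕ) * θ : ℝ) * Complex.I) := by
      rw [← Complex.exp_add]
      congr 1
      push_cast; ring
    have e3 : Complex.exp (-((3 : ℕ) * θ : ℝ) * Complex.I) =
        Complex.exp (-(θ : ℂ) * Complex.I) * Complex.exp (-((2 : ℕ) * θ : ℝ) * Complex.I) := by
      rw [← Complex.exp_add]
      congr 1
      push_cast; ring
    rw [e1, e3]
    push_cast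
    rw [Complex.cos, Complex.sin]
    ring
  simp_rw [e]
  rw [intervalIntegral.integral_add (Continuous.intervalIntegrable (by fun_prop) _ _)
    (Continuous.intervalIntegrable (by fun_prop) _ _),
    intervalIntegral.integral_add (Continuous.intervalIntegrable (by fun_prop) _ _)
    (Continuous.intervalIntegrable (by fun_prop) _ _), intervalIntegral.integral_const_mul,
    intervalIntegral.integral_const_mul, intervalIntegral.integral_const_mul, h1, h2, h3]
  ring

lemma test2 {g : ℝ → ℝ} (hg : Continuous g) {M : ℝ} (hM : ∀ θ, |g θ| ≤ M)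
    (hg2 : ∫ θ in (-π)..π, (g θ : ℂ) * Complex.exp (-((2 : ℕ) * θ : ℝ) * Complex.I) = 0)
    (s k : ℝ) (h0 : ∀ α, Psi (fun θ => 1 + s * g θ) k α = 0) :
    ‖((s ^ 2 / 2 : ℝ) : ℂ) * ((∫ φ in (-π)..π, (g φ : ℂ) ^ 2 *
      Complex.exp (-((2 : ℕ) * φ : ℝ) * Complex.I)) * (EE 2 k + k * EE' 2 k))‖ ≤
      2 * π * (2 * π * ((3 * k ^ 2 + |k|) * |s * M| ^ 3)) := by
  have hpi := Real.pi_pos
  have hc1 := conv_lemma (h := fun θ => (g θ : ℂ)) (w := Ek k) (by fun_prop) (Ek_cont k) (Ek_per k) 2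
  rw [hg2, zero_mul] at hc1
  have hc2 := conv_lemma (h := fun θ => (g θ : ℂ) ^ 2) (w := Wk k) (by fun_prop) (Wk_cont k)
    (Wk_per k) 2
  rw [WEE] at hc2
  have hr : ∫ α in (-π)..π, Complex.exp (-((2 : ℕ) * α : ℝ) * Complex.I) * Psi (fun _ => 1) k 0 = 0 := by
    rw [intervalIntegral.integral_mul_const, exp_int (by norm_num), zero_mul]
  have hi1 : Continuous (fun α : ℝ => ∫ θ in (-π)..π, (g θ : ℂ) * Ek k (θ - α)) := by
    apply intervalIntegral.continuous_parametric_intervalIntegral_of_continuous'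
    unfold Function.uncurry Ek
    fun_prop
  have hi2 : Continuous (fun α : ℝ => ∫ θ in (-π)..π, (g θ : ℂ) ^ 2 * Wk k (θ - α)) := by
    apply intervalIntegral.continuous_parametric_intervalIntegral_of_continuous'
    unfold Function.uncurry Wk Ek
    fun_prop
  have hmain : ((s ^ 2 / 2 : ℝ) : ℂ) * ((∫ φ in (-π)..π, (g φ : ℂ) ^ 2 *
      Complex.exp (-((2 : ℕ) * φ : ℝ) * Complex.I)) * (EE 2 k + k * EE' 2 k)) =
      ∫ α in (-π)..π, (((s ^ 2 / 2 : ℝ) : ℂ) * (Complex.exp (-((2 : ℕ) * α : ℝ) * Complex.I) *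
        ∫ θ in (-π)..π, (g θ : ℂ) ^ 2 * Wk k (θ - α)) +
        ((s : ℂ) * (Complex.exp (-((2 : ℕ) * α : ℝ) * Complex.I) *
          ∫ θ in (-π)..π, (g θ : ℂ) * Ek k (θ - α)) +
        Complex.exp (-((2 : ℕ) * α : ℝ) * Complex.I) * Psi (fun _ => 1) k 0)) := by
    rw [intervalIntegral.integral_add (Continuous.intervalIntegrable (by fun_prop) _ _)
      (Continuous.intervalIntegrable (by fun_prop) _ _),
      intervalIntegral.integral_add (Continuous.intervalIntegrable (by fun_prop) _ _)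
      (Continuous.intervalIntegrable (by fun_prop) _ _), intervalIntegral.integral_const_mul,
      intervalIntegral.integral_const_mul, hr, hc1, hc2, mul_zero, add_zero, add_zero]
  rw [hmain]
  have h2 := intervalIntegral.norm_integral_le_of_norm_le_const (a := -π) (b := π)
    (C := 2 * π * ((3 * k ^ 2 + |k|) * |s * M| ^ 3)) (f := fun α : ℝ =>
      (((s ^ 2 / 2 : ℝ) : ℂ) * (Complex.exp (-((2 : ℕ) * α : ℝ) * Complex.I) *
        ∫ θ in (-π)..π, (g θ : ℂ) ^ 2 * Wk k (θ - α)) +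
        ((s : ℂ) * (Complex.exp (-((2 : ℕ) * α : ℝ) * Complex.I) *
          ∫ θ in (-π)..π, (g θ : ℂ) * Ek k (θ - α)) +
        Complex.exp (-((2 : ℕ) * α : ℝ) * Complex.I) * Psi (fun _ => 1) k 0))) (fun α _ => by
      have e : (((s ^ 2 / 2 : ℝ) : ℂ) * (Complex.exp (-((2 : ℕ) * α : ℝ) * Complex.I) *
        ∫ θ in (-π)..π, (g θ : ℂ) ^ 2 * Wk k (θ - α)) +
        ((s : ℂ) * (Complex.exp (-((2 : ℕ) * α : ℝ) * Complex.I) *
          ∫ θ in (-π)..π, (g θ : ℂ) * Ek k (θ - α)) +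
        Complex.exp (-((2 : ℕ) * α : ℝ) * Complex.I) * Psi (fun _ => 1) k 0)) =
        -(Complex.exp (((-((2 : ℕ) * α) : ℝ) : ℂ) * Complex.I) *
        (Psi (fun θ => 1 + s * g θ) k α - Psi (fun _ => 1) k α -
          ((s : ℂ) * (∫ θ in (-π)..π, (g θ : ℂ) * Ek k (θ - α)) +
       ((s ^ 2 / 2 : ℝ) : ℂ) * ∫ θ in (-π)..π, ((g θ : ℂ) ^ 2) *
        ((1 + ((k * Real.cos (θ - α) : ℝ) : ℂ) * Complex.I) * Ek k (θ - α))))) := by
        rw [Psi_radial k α, h0 α]
        unfold Wk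
        push_cast
        ring
      rw [e, norm_neg, norm_mul, norm_e, one_mul]
      exact Psi_exp2 hg hM s k α)
  refine h2.trans (le_of_eq ?_)
  have habs : |π - -π| = 2 * π := by
    rw [sub_neg_eq_add, abs_of_pos (by linarith)]; ring
  rw [habs]
  ring

theorem lin2 : S_lin2 := by
  intro hpol a b c κ s0 hκ hs0 hD
  have hpi := Real.pi_pos
  set g : ℝ → ℝ := fun θ => a + b * Real.cos θ + c * Real.sin θ with hgdef
  have hg : Continuous g := by rw [hgdef]; fun_prop
  have hper : Function.Periodic g (2 * π) := by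
    intro θ
    simp only [hgdef, Real.cos_add_two_pi, Real.sin_add_two_pi]
  obtain ⟨M, hM0, hM⟩ := per_bdd hg hper
  have hg2 : ∫ θ in (-π)..π, (g θ : ℂ) * Complex.exp (-((2 : ℕ) * θ : ℝ) * Complex.I) = 0 :=
    ghat2 a b c
  -- small s
  have hsm : ∀ᶠ s : ℝ in 𝓝[>] 0, 0 < s ∧ s < s0 ∧ s * M ≤ 1 / 2 := by
    filter_upwards [Ioo_mem_nhdsGT (show (0:ℝ) < min s0 (1 / (2 * M)) by positivity)] with s hs
    refine ⟨hs.1, hs.2.trans_le (min_le_left _ _), ?_⟩
    have : s ≤ 1 / (2 * M) := (hs.2.trans_le (min_le_right _ _)).le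
    calc s * M ≤ 1 / (2 * M) * M := by gcongr
      _ = 1 / 2 := by field_simp
  have hA : Tendsto (fun s => volume.real (starDom fun θ => 1 + s * g θ)) (𝓝[>] 0) (𝓝 π) := by
    rw [tendsto_iff_dist_tendsto_zero]
    have hlim : Tendsto (fun s : ℝ => 4 * π * (s * M)) (𝓝[>] 0) (𝓝 0) := by
      apply tendsto_nhdsWithin_of_tendsto_nhds
      have hc : Continuous (fun s : ℝ => 4 * π * (s * M)) := by fun_prop
      have := hc.tendsto 0
      simpa using this
    refine squeeze_zero' (Eventually.of_forall fun _ => dist_nonneg) ?_ hlim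
    filter_upwards [hsm] with s hs
    rw [Real.dist_eq]
    exact star_area hpol hg hM hs.1.le hs.2.2
  set k0 : ℝ := √(κ / π) with hk0
  set ks : ℝ → ℝ := fun s => √(κ / volume.real (starDom fun θ => 1 + s * g θ)) with hks
  have hk : Tendsto ks (𝓝[>] 0) (𝓝 k0) := by
    apply (Real.continuous_sqrt.tendsto _).comp
    exact tendsto_const_nhds.div hA hpi.ne'
  have hApos : ∀ᶠ s in 𝓝[>] (0:ℝ), 0 < volume.real (starDom fun θ => 1 + s * g θ) :=
    hA.eventually (lt_mem_nhds hpi)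
  have hmain : ∀ᶠ s in 𝓝[>] (0:ℝ), ∀ α, Psi (fun θ => 1 + s * g θ) (ks s) α = 0 := by
    filter_upwards [hsm, hApos] with s hs hpos α
    have hR0 : ∀ θ, 0 ≤ 1 + s * g θ := by
      intro θ
      have h1 : |s * g θ| ≤ s * M := by
        rw [abs_mul, abs_of_pos hs.1]
        exact mul_le_mul_of_nonneg_left (hM θ) hs.1.le
      have := (abs_le.mp h1).1
      linarith [hs.2.2]
    have hRc : Continuous (fun θ => 1 + s * g θ) := by fun_prop
    rw [← ft_star hpol hRc hR0]
    apply hD s hs.1 hs.2.1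
    rw [norm_mul, norm_e, mul_one, Complex.norm_real, Real.norm_eq_abs, sq_abs, hks]
    simp only
    rw [Real.sq_sqrt (by positivity)]
    field_simp
    rfl
  have hid : Tendsto (fun s : ℝ => s) (𝓝[>] 0) (𝓝 0) := tendsto_nhdsWithin_of_tendsto_nhds tendsto_id
  set G : ℂ := ∫ φ in (-π)..π, (g φ : ℂ) ^ 2 * Complex.exp (-((2 : ℕ) * φ : ℝ) * Complex.I) with hG
  have h1 : Tendsto (fun s => G * (EE 2 (ks s) + (ks s : ℂ) * EE' 2 (ks s))) (𝓝[>] 0)
      (𝓝 (G * (EE 2 k0 + (k0 : ℂ) * EE' 2 k0))) := by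
    apply Tendsto.const_mul
    apply Tendsto.add
    · exact ((EE_cont 2).tendsto k0).comp hk
    · exact ((Complex.continuous_ofReal.tendsto k0).comp hk).mul (((EE'_cont 2).tendsto k0).comp hk)
  have h2 : Tendsto (fun s => G * (EE 2 (ks s) + (ks s : ℂ) * EE' 2 (ks s))) (𝓝[>] 0) (𝓝 0) := by
    rw [tendsto_zero_iff_norm_tendsto_zero]
    have hlim : Tendsto (fun s : ℝ => s * (2 * (2 * π * (2 * π * ((3 * (ks s) ^ 2 + |ks s|) * M ^ 3)))))
        (𝓝[>] 0) (𝓝 (0 * (2 * (2 * π * (2 * π * ((3 * k0 ^ 2 + |k0|) * M ^ 3)))))) := by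
      apply hid.mul
      exact ((((((hk.pow 2).const_mul 3).add hk.abs).mul_const (M ^ 3)).const_mul _).const_mul _).const_mul _
    rw [zero_mul] at hlim
    refine squeeze_zero' (Eventually.of_forall fun _ => norm_nonneg _) ?_ hlim
    filter_upwards [hsm, hmain] with s hs hmm
    have h3 := test2 hg hM hg2 s (ks s) hmm
    rw [← hG, norm_mul, Complex.norm_real, Real.norm_eq_abs, abs_of_pos (by have := hs.1; positivity),
      abs_of_nonneg (mul_nonneg hs.1.le hM0.le)] at h3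
    have e : 2 * π * (2 * π * ((3 * (ks s) ^ 2 + |ks s|) * (s * M) ^ 3)) =
        s ^ 2 / 2 * (s * (2 * (2 * π * (2 * π * ((3 * (ks s) ^ 2 + |ks s|) * M ^ 3))))) := by ring
    rw [e] at h3
    exact le_of_mul_le_mul_left h3 (by have := hs.1; positivity)
  have h3 := tendsto_nhds_unique h1 h2
  have e : ∫ φ in (-π)..π, ((a + b * Real.cos φ + c * Real.sin φ : ℝ) : ℂ) ^ 2 *
      Complex.exp (-(2 * φ : ℝ) * Complex.I) = G := by
    rw [hG]
    apply intervalIntegral.integral_congr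
    intro φ _
    simp only [hgdef, Nat.cast_ofNat]
  rw [e]
  exact h3

end Q285SF
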