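import Pool.Agent.Q249.SF.Stm

/-! Project SF (helper249), job WUP (helper285): multiplication of a slope weight by a power. -/

set_option autoImplicit false

open Real

namespace Q285.SF

theorem t_WUP : Q249.SF.S_WUP := by
  intro γ hγ K
  refine ⟨K + ⌈2 * γ⌉₊, fun w hw => ?_⟩
  obtain ⟨hc, h0, hm, hs⟩ := hw
  have hp : ∀ x : ℝ, 0 ≤ |x| ^ (2 * γ) := fun x => Real.rpow_nonneg (abs_nonneg x) _
  refine ⟨?_, ?_, ?_, ?_⟩
  · unfold Q249.SF.up
    exact hc.mul (continuous_abs.rpow_const fun x => Or.inr (by linarith))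
  · intro x
    exact mul_nonneg (h0 x) (hp x)
  · intro x y hxy
    unfold Q249.SF.up
    exact mul_le_mul (hm x y hxy) (Real.rpow_le_rpow (abs_nonneg x) hxy (by linarith)) (hp x) (h0 y)
  · intro c x hcx
    unfold Q249.SF.up
    have hc0 : 0 ≤ c := by linarith
    rw [abs_mul, abs_of_nonneg hc0, Real.mul_rpow hc0 (abs_nonneg x)]
    have h1 : c ^ (2 * γ) ≤ c ^ ⌈2 * γ⌉₊ := by
      rw [← Real.rpow_natCast]
      exact Real.rpow_le_rpow_of_exponent_le hcx (Nat.le_ceil _)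
    have h2 := hs c x hcx
    have h3 : 0 ≤ c ^ (2 * γ) := Real.rpow_nonneg hc0 _
    calc w (c * x) * (c ^ (2 * γ) * |x| ^ (2 * γ))
        ≤ (c ^ K * w x) * (c ^ ⌈2 * γ⌉₊ * |x| ^ (2 * γ)) := by
          refine mul_le_mul h2 (mul_le_mul_of_nonneg_right h1 (hp x)) (mul_nonneg h3 (hp x)) ?_
          exact mul_nonneg (pow_nonneg hc0 _) (h0 x)
      _ = c ^ (K + ⌈2 * γ⌉₊) * (w x * |x| ^ (2 * γ)) := by
          rw [pow_add]; ring

end Q285.SF
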